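import Pool.Agent.Y984.MD.Final

set_option autoImplicit false

/-!
# MP_291ce2_pr, Q1: the censored chain on monotone sets of density at least `c` mixes in `O_c(n log n)`

All definitions are written out here. The bound itself comes from the starting library
`Pool.Agent.Y984.MD` (start file `MP_52661b_pr.DenseMonotoneSets`).
-/

namespace Pool.Agent.Results.MP_291ce2_pr.LargeMonotoneSets

open Finset

/-- The hypercube `{0,1}^n`. -/
abbrev Cube (n : ℕ) : Type := Fin n → Bool

/-- `A` is monotone (an up-set). -/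
def IsMonotoneSet {n : ℕ} (A : Finset (Cube n)) : Prop :=
  ∀ x ∈ A, ∀ y : Cube n, (∀ i, x i ≤ y i) → y ∈ A

/-- The uniform probability of `A`. -/
noncomputable def prob {n : ℕ} (A : Finset (Cube n)) : ℝ := (A.card : ℝ) / 2 ^ n

/-- The next state of the censored chain `M_A` from `x`, when the coordinate `i` is chosen and the
fresh bit is `b`: `x_i` is replaced by `b` if the result is in `A`; otherwise the chain stays. -/
def next {n : ℕ} (A : Finset (Cube n)) (x : Cube n) (i : Fin n) (b : Bool) : Cube n :=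
  if Function.update x i b ∈ A then Function.update x i b else x

/-- The transition matrix of `M_A`: the pair `(i, b)` is uniform among the `2 n` pairs. -/
noncomputable def kernel {n : ℕ} (A : Finset (Cube n)) : Matrix A A ℝ := fun x y =>
  ((univ.filter fun c : Fin n × Bool => next A x.1 c.1 c.2 = y.1).card : ℝ) / (2 * n)

/-- Total variation distance. -/
noncomputable def tvDist {n : ℕ} {A : Finset (Cube n)} (μ ν : A → ℝ) : ℝ :=
  (1 / 2) * ∑ y, |μ y - ν y|

/-- The uniform distribution on `A`. -/
noncomputable def stationary {n : ℕ} (A : Finset (Cube n)) : A → ℝ := fun _ => 1 / (A.card : ℝ)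

/-- After `t` steps, from every starting state, the law is within `1/4` of uniform. -/
def IsMixed {n : ℕ} (A : Finset (Cube n)) (t : ℕ) : Prop :=
  ∀ x : A, tvDist ((kernel A ^ t) x) (stationary A) ≤ 1 / 4

/-- The mixing time of `M_A`. -/
noncomputable def mixingTime {n : ℕ} (A : Finset (Cube n)) : ℕ := sInf {t | IsMixed A t}

theorem update_flp {n : ℕ} (x : Cube n) (i : Fin n) (b : Bool) (hb : b ≠ x i) :
    Function.update x i b = Pool.Agent.Y984.MD.flp x i := by
  have : b = !(x i) := by
    cases b <;> cases h : x i <;> simp_all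
  rw [this]
  rfl

theorem sum_bool_next {n : ℕ} (A : Finset (Cube n)) (x y : A) (i : Fin n) :
    (∑ b : Bool, if next A x.1 i b = y.1 then (1 : ℕ) else 0) =
      (if y = x then 1 else 0) + if Pool.Agent.Y984.MD.mv A x.1 i = y.1 then 1 else 0 := by
  have h1 : next A x.1 i (x.1 i) = x.1 := by
    unfold next
    rw [Function.update_eq_self]
    simp
  have h2 : ∀ b, b ≠ x.1 i → next A x.1 i b = Pool.Agent.Y984.MD.mv A x.1 i := by
    intro b hb
    unfold next Pool.Agent.Y984.MD.mv
    rw [update_flp x.1 i b hb]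
  have h3 : (y = x) ↔ (x.1 = y.1) := by
    rw [eq_comm, Subtype.ext_iff]
  simp only [h3]
  rw [Fintype.sum_bool]
  cases hx : x.1 i
  · rw [hx] at h1 h2
    rw [h1, h2 true (by simp)]
    omega
  · rw [hx] at h1 h2
    rw [h1, h2 false (by simp)]

theorem kernel_eq {n : ℕ} (hn : n ≠ 0) (A : Finset (Cube n)) :
    kernel A = Pool.Agent.Y984.MD.P A := by
  funext x y
  unfold kernel Pool.Agent.Y984.MD.P
  have hcard : (univ.filter fun c : Fin n × Bool => next A x.1 c.1 c.2 = y.1).card =
      n * (if y = x then 1 else 0) +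
        (univ.filter (fun i : Fin n => Pool.Agent.Y984.MD.mv A x.1 i = y.1)).card := by
    rw [Finset.card_filter, Fintype.sum_prod_type]
    simp only [sum_bool_next]
    rw [Finset.sum_add_distrib, Finset.card_filter]
    simp
  rw [hcard]
  have hn0 : (n : ℝ) ≠ 0 := by exact_mod_cast hn
  push_cast
  field_simp

/-- **Answer to Q1 (affirmative).** For every `c > 0` there is `C > 0` (one can take
`C = 10^12 / c^8`) such that for all `n ≥ 2` and every monotone `A ⊆ {0,1}^n` of probability at
least `c` the mixing time of the censored chain `M_A` is attained and is at most `C n log n`. -/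
theorem result : ∀ c : ℝ, 0 < c → ∃ C : ℝ, 0 < C ∧ C = 10 ^ 12 / c ^ 8 ∧
    ∀ n : ℕ, 2 ≤ n → ∀ A : Finset (Cube n), IsMonotoneSet A → c ≤ prob A →
      IsMixed A (mixingTime A) ∧ (mixingTime A : ℝ) ≤ C * (n * Real.log n) := by
  intro c hc
  refine ⟨10 ^ 12 / c ^ 8, by positivity, rfl, fun n hn A hA hcA => ?_⟩
  have hne : A.Nonempty := by
    rw [← Finset.card_pos]
    by_contra h
    have h0 : A.card = 0 := by omega
    unfold prob at hcA
    rw [h0] at hcA
    simp at hcA
    linarith
  obtain ⟨h1, h2⟩ := Pool.Agent.Y984.MD.final n hn A hne hA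
  have hM : ∀ t, IsMixed A t ↔ Pool.Agent.Y984.MD.Mixed A t := by
    intro t
    unfold IsMixed Pool.Agent.Y984.MD.Mixed
    rw [kernel_eq (by omega) A]
    rfl
  have hT : mixingTime A = Pool.Agent.Y984.MD.tmix A := by
    unfold mixingTime Pool.Agent.Y984.MD.tmix
    congr 1
    ext t
    exact hM t
  rw [hT]
  refine ⟨(hM _).2 h1, h2.trans ?_⟩
  have hd : (0 : ℝ) < Pool.Agent.Y984.MD.dens A := lt_of_lt_of_le hc hcA
  have hlog : 0 ≤ (n : ℝ) * Real.log n := by
    have : (1 : ℝ) ≤ n := by
      have : 1 ≤ n := by omega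
      exact_mod_cast this
    exact mul_nonneg (by linarith) (Real.log_nonneg this)
  have hle : c ≤ Pool.Agent.Y984.MD.dens A := hcA
  calc 10 ^ 12 * ((n : ℝ) * Real.log n) / Pool.Agent.Y984.MD.dens A ^ 8
      ≤ 10 ^ 12 * ((n : ℝ) * Real.log n) / c ^ 8 := by
        gcongr
    _ = 10 ^ 12 / c ^ 8 * ((n : ℝ) * Real.log n) := by ring

end Pool.Agent.Results.MP_291ce2_pr.LargeMonotoneSets
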